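import Pool.Agent.helper17.EXT.SpecJ

/-!
# Project EXT (MP_561ff4_al), row `ftj:JRK`: rank one for a short root
-/

set_option autoImplicit false

open Finset

namespace Pool.Agent.EXT

open Pool.Agent.EXC

section

variable {n : ℕ} (C : Matrix (Fin n) (Fin n) ℤ) [IsC C] {F : Type} [Field F]

theorem JRK_add (a : Lm C F) (t : F) (v w : Lm C F) : xe C a t (v + w) = xe C a t v + xe C a t w := by
  unfold xe
  rw [br_add_right, fm_add_right, mul_add, add_smul, smul_add]
  abel

theorem JRK_smul (a : Lm C F) (t c : F) (v : Lm C F) : xe C a t (c • v) = c • xe C a t v := by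
  unfold xe
  rw [br_smul_right, fm_smul_right, smul_add, smul_add, smul_smul, smul_smul, smul_smul]
  congr 2
  · rw [mul_comm]
  · ring

theorem JRK_sub (a : Lm C F) (t : F) (v w : Lm C F) : xe C a t (v - w) = xe C a t v - xe C a t w := by
  have h : v - w = v + (-1 : F) • w := by
    rw [neg_one_smul]
    abel
  rw [h, JRK_add, JRK_smul, neg_one_smul]
  abel

/-- the rank one computation of RKO; the root on the right is on the `α`-line of `β` -/
theorem JRK_rko (α β : Fin n → ℤ) (s t : F) (hα : ip C α α = 2) (hβ : ip C β β = 2) :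
    ∃ β' : Fin n → ℤ, ip C β' β' = 2 ∧ (∃ k : ℤ, β' = β + k • α) ∧ ∃ c : F, c ≠ 0 ∧ ∃ s' : F,
      xe C (E C (-α)) t (xe C (E C α) s (E C β)) = c • (xe C (E C α) s' (E C β') : Lm C F) := by
  have hACT := f_ACT
  have hnα : ip C (-α) (-α) = 2 := neg_root C hα
  have hb := ip_abs_le hα hβ
  have hm : ip C α β = -2 ∨ ip C α β = -1 ∨ ip C α β = 0 ∨ ip C α β = 1 ∨ ip C α β = 2 := by omega
  have hA1 := fun u : F => (hACT n C F α u hα).1
  have hA2 := fun u : F => (hACT n C F α u hα).2.1
  have hA3 := fun u : F => (hACT n C F α u hα).2.2.1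
  have hN1 := fun u : F => (hACT n C F (-α) u hnα).1
  have hN2 := fun u : F => (hACT n C F (-α) u hnα).2.1
  have hN3 := fun u : F => (hACT n C F (-α) u hnα).2.2.1
  have hN5 := fun u : F => (hACT n C F (-α) u hnα).2.2.2.2
  have hN3' : ∀ u : F, xe C (E C (-α)) u (E C α) = (E C α + u • ht C α + u ^ 2 • E C (-α) : Lm C F) := by
    intro u
    have h := hN3 u
    rw [neg_neg, ht_neg, smul_neg, sub_neg_eq_add] at h
    exact h
  have hz : ∀ γ, ip C γ γ = 2 → 0 ≤ ip C α γ → xe C (E C α) 0 (E C γ) = (E C γ : Lm C F) := hA1 0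
  rcases hm with hm | hm | hm | hm | hm
  · -- `β = -α`
    have hβα : β = -α := eq_neg_of_ip_eq_neg_two hα hβ hm
    subst hβα
    have h1 : xe C (E C (-α)) t (xe C (E C α) s (E C (-α))) =
        ((1 - s * t) ^ 2 • E C (-α) - (s * (1 - s * t)) • ht C α + s ^ 2 • E C α : Lm C F) := by
      rw [hA3 s, JRK_add, JRK_sub, JRK_smul, JRK_smul, hN3' t, hN5 t α, hN1 t (-α) hnα (by rw [hnα]; norm_num)]
      have h2 : ((ip C (-α) α : ℤ) : F) = -2 := by
        rw [ip_neg_left, hα]
        norm_num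
      rw [h2]
      module
    by_cases hd : 1 - s * t = 0
    · have hs : s ≠ 0 := by
        rintro rfl
        simp at hd
      refine ⟨α, hα, ⟨2, by module⟩, s ^ 2, pow_ne_zero 2 hs, 0, ?_⟩
      rw [h1, hz α hα (by rw [hα]; norm_num), hd]
      simp
    · refine ⟨-α, hnα, ⟨0, by module⟩, (1 - s * t) ^ 2, pow_ne_zero 2 hd, s / (1 - s * t), ?_⟩
      rw [h1, hA3]
      have h2 : (1 - s * t) ^ 2 * (s / (1 - s * t)) = s * (1 - s * t) := by
        field_simp
      have h3 : (1 - s * t) ^ 2 * (s / (1 - s * t)) ^ 2 = s ^ 2 := by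
        field_simp
      rw [smul_add, smul_sub, smul_smul, smul_smul, h2, h3]
  · -- `α + β` is a root
    have hab : ip C (α + β) (α + β) = 2 := (add_root_iff hα hβ).2 hm
    have h1 : ip C (-α) (α + β) = -1 := by
      rw [ip_add_right, ip_neg_left, ip_neg_left, hα, hm]
      norm_num
    have h2 : ip C (-α) β = 1 := by
      rw [ip_neg_left, hm]
      norm_num
    have h3 : -α + (α + β) = β := by abel
    have h4 : xe C (E C (-α)) t (xe C (E C α) s (E C β)) =
        ((1 + s * (sg C α β : F) * (t * (sg C (-α) (α + β) : F))) • E C β + (s * (sg C α β : F)) • E C (α + β) : Lm C F) := by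
      rw [hA2 s β hβ hm, JRK_add, JRK_smul, hN1 t β hβ (by rw [h2]; norm_num), hN2 t (α + β) hab h1, h3]
      module
    by_cases hd : 1 + s * (sg C α β : F) * (t * (sg C (-α) (α + β) : F)) = 0
    · have hs : s * (sg C α β : F) ≠ 0 := by
        intro h
        rw [h] at hd
        simp at hd
      refine ⟨α + β, hab, ⟨1, by module⟩, s * (sg C α β : F), hs, 0, ?_⟩
      have h5 : ip C α (α + β) = 1 := by
        rw [ip_add_right, hα, hm]
        norm_num
      rw [h4, hd, hz (α + β) hab (by rw [h5]; norm_num), zero_smul, zero_add]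
    · refine ⟨β, hβ, ⟨0, by module⟩, _, hd, s / (1 + s * (sg C α β : F) * (t * (sg C (-α) (α + β) : F))), ?_⟩
      rw [h4, hA2 _ β hβ hm, smul_add, smul_smul]
      congr 2
      rw [← mul_assoc, mul_div_cancel₀ _ hd]
  · -- orthogonal
    have h2 : ip C (-α) β = 0 := by
      rw [ip_neg_left, hm]
      norm_num
    refine ⟨β, hβ, ⟨0, by module⟩, 1, one_ne_zero, 0, ?_⟩
    rw [hA1 s β hβ (by rw [hm]), hN1 t β hβ (by rw [h2]), hz β hβ (by rw [hm]), one_smul]
  · -- `β - α` is a root
    have h2 : ip C (-α) β = -1 := by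
      rw [ip_neg_left, hm]
    have h0 : xe C (E C α) s (E C β) = (E C β : Lm C F) := hA1 s β hβ (by rw [hm]; norm_num)
    by_cases ht0 : t = 0
    · refine ⟨β, hβ, ⟨0, by module⟩, 1, one_ne_zero, 0, ?_⟩
      rw [h0, hN2 t β hβ h2, hz β hβ (by rw [hm]; norm_num), one_smul, ht0, zero_mul, zero_smul, add_zero]
    · have hba : ip C (-α + β) (-α + β) = 2 := (add_root_iff hnα hβ).2 h2
      have h3 : ip C α (-α + β) = -1 := by
        rw [ip_add_right, ip_neg_right, hα, hm]
        norm_num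
      have h4 : α + (-α + β) = β := by abel
      have hc : t * (sg C (-α) β : F) ≠ 0 := mul_ne_zero ht0 (sg_ne_zero C _ _)
      have hc' : t * (sg C (-α) β : F) * (sg C α (-α + β) : F) ≠ 0 := mul_ne_zero hc (sg_ne_zero C _ _)
      refine ⟨-α + β, hba, ⟨-1, by module⟩, t * (sg C (-α) β : F), hc, (t * (sg C (-α) β : F) * (sg C α (-α + β) : F))⁻¹, ?_⟩
      rw [h0, hN2 t β hβ h2, hA2 _ (-α + β) hba h3, h4, smul_add, smul_smul]
      have h5 : t * (sg C (-α) β : F) * ((t * (sg C (-α) β : F) * (sg C α (-α + β) : F))⁻¹ * (sg C α (-α + β) : F)) = 1 := by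
        rw [mul_comm ((t * (sg C (-α) β : F) * (sg C α (-α + β) : F))⁻¹), ← mul_assoc]
        exact mul_inv_cancel₀ hc'
      rw [h5, one_smul]
      abel
  · -- `β = α`
    have hβα : α = β := eq_of_ip_eq_two hα hβ hm
    subst hβα
    have h0 : xe C (E C α) s (E C α) = (E C α : Lm C F) := hA1 s α hα (by rw [hm]; norm_num)
    by_cases ht0 : t = 0
    · refine ⟨α, hα, ⟨0, by module⟩, 1, one_ne_zero, 0, ?_⟩
      rw [h0, hN3' t, hz α hα (by rw [hm]; norm_num), one_smul, ht0]
      simp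
    · refine ⟨-α, hnα, ⟨-2, by module⟩, t ^ 2, pow_ne_zero 2 ht0, -t⁻¹, ?_⟩
      have h2 : t ^ 2 * -t⁻¹ = -t := by
        field_simp
      have h3 : t ^ 2 * (-t⁻¹) ^ 2 = 1 := by
        field_simp
      rw [h0, hN3' t, hA3, smul_add, smul_sub, smul_smul, smul_smul, h2, h3, one_smul, neg_smul]
      abel

theorem JRK_ip_smul (k : ℤ) (v w : Fin n → ℤ) : ip C v (k • w) = k * ip C v w := by
  induction k using Int.induction_on with
  | zero =>
    have h := ip_add_right C v 0 0
    simp at h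
    simp [h]
  | succ m ih => rw [add_smul, one_smul, ip_add_right, ih]; ring
  | pred m ih => rw [sub_smul, one_smul, sub_eq_add_neg, ip_add_right, ip_neg_right, ih]; ring

end

/-- the finite check -/
theorem JRK_fin : ∀ i : Fin 6, ∀ γ ∈ RL, pn i ≠ i → pv γ ≠ γ → ip C6 (sr i) γ = 0 ∨ ip C6 (sr (pn i)) γ = 0 ∨
    ip C6 (sr i) γ + ip C6 (sr (pn i)) γ = 0 := by
  decide +kernel

theorem JRK (hLST : LST_stmt) (hRTF : RTF_stmt) (hSIG : SIG_stmt) (hSGR : SGR_stmt) (hJCM : JCM_stmt) : JRK_stmt := by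
  intro K _ h2 i γ s t x y hγ hx hy
  have hLST := hLST
  obtain ⟨r1, r2, r3, r4, r5, -, r7, -, r9, r10, -, -, r13, -, -⟩ := hRTF
  obtain ⟨g1, -, -, -, -, -⟩ := hSGR K (RingEquiv.refl K) (fun _ => rfl)
  have hi : ip C6 (sr i) (sr i) = 2 := ip_sr_self C6 i
  have hi' : ip C6 (sr (pn i)) (sr (pn i)) = 2 := ip_sr_self C6 (pn i)
  by_cases hpi : pn i = i
  · -- a long simple root
    have hx1 : IsX C6 (E C6 (sr i)) s x := by
      rcases hx with ⟨-, -, h⟩ | ⟨h, -⟩
      · exact h
      · exact absurd hpi h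
    have hy1 : IsX C6 (E C6 (-sr i)) t y := by
      rcases hy with ⟨-, -, h⟩ | ⟨h, -⟩
      · exact h
      · exact absurd hpi h
    left
    obtain ⟨γ', hγ', ⟨k, hk⟩, c, hc, s', e⟩ := JRK_rko C6 (sr i) γ s t hi hγ.1
    have hNB := (f_NBR 6 C6 1 _ _ f_DE6.2).1
    obtain ⟨-, hE, hEx, -⟩ := f_EXF 6 C6 K hNB
    obtain ⟨x', -, hx'⟩ := (hEx _ (hE (sr i) hi)).2.2.2.2.1 s'
    refine ⟨γ', ⟨hγ', ?_⟩, c, hc, s', x', Or.inl ⟨hpi, rfl, hx'⟩, ?_⟩
    · intro h
      apply hγ.2
      have hs : ∀ k : ℤ, pv (k • sr i : Fin 6 → ℤ) = k • sr i := by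
        intro k
        have h5 := r5 i
        rw [hpi] at h5
        funext j
        have h6 := congrFun h5 j
        change k * sr i (pn j) = k * sr i j
        rw [show sr i (pn j) = sr i j from h6]
      rw [hk, r3, hs] at h
      exact add_right_cancel h
    · rw [hx1, hy1, hx', e]
  · -- a short simple root
    have hx1 : IsS (RingEquiv.refl K) (sr i) s x := by
      rcases hx with ⟨h, -⟩ | ⟨-, h⟩
      · exact absurd h hpi
      · exact h
    have hy1 : IsS (RingEquiv.refl K) (-sr i) t y := by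
      rcases hy with ⟨h, -⟩ | ⟨-, h⟩
      · exact absurd h hpi
      · exact h
    have hS : SR (sr i) := by
      refine ⟨hi, ?_⟩
      rw [r5]
      intro h
      have h1 := congrFun h i
      simp only [sr, Pi.single_apply] at h1
      rw [if_neg (fun e => hpi e.symm)] at h1
      simp at h1
    have hSn : SR (-sr i) := by
      refine ⟨neg_root C6 hi, ?_⟩
      rw [r4]
      intro h
      exact hS.2 (neg_injective h)
    obtain ⟨α, hα⟩ : ∃ α, α = sr i := ⟨_, rfl⟩
    obtain ⟨α', hα'⟩ : ∃ α', α' = sr (pn i) := ⟨_, rfl⟩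
    have hπ : pv α = α' := by rw [hα, hα', r5]
    have hπ' : pv α' = α := by rw [← hπ, r2]
    have hfin := JRK_fin i γ ((hLST γ).1 hγ.1) hpi hγ.2
    rw [← hα] at hi hx1 hy1 hS hSn hfin
    rw [← hα'] at hi' hfin
    have hort : ip C6 α α' = 0 := by rw [← hπ]; exact r13 α hS
    have hort' : ip C6 α' α = 0 := by rw [ip_comm]; exact hort
    have hnα : ip C6 (-α) (-α) = 2 := neg_root C6 hi
    have hnα' : ip C6 (-α') (-α') = 2 := neg_root C6 hi'
    have one_sn : ∀ v : Fin 6 → ℤ, (sn v : K) = 1 := by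
      intro v
      rcases r7 v with h | h
      · rw [h]; norm_num
      · rw [h]
        have : (-1 : K) = 1 := by
          have h3 : (1 : K) + 1 = 0 := by rw [one_add_one_eq_two]; exact h2
          exact (eq_neg_of_add_eq_zero_left h3).symm
        push_cast
        exact this
    have hxs : ∀ v : Lm C6 K, x v = xe C6 (E C6 α) s (xe C6 (E C6 α') s v) := by
      intro v
      rw [hx1 v, hπ, one_sn, one_mul]
      rfl
    have hys : ∀ v : Lm C6 K, y v = xe C6 (E C6 (-α)) t (xe C6 (E C6 (-α')) t v) := by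
      intro v
      rw [hy1 v, r4, hπ, one_sn, one_mul]
      rfl
    rcases hfin with ha | hb | hab
    · -- `a = 0`
      left
      obtain ⟨γ', hγ', ⟨k, hk⟩, c, hc, s', e⟩ := JRK_rko C6 α' γ s t hi' hγ.1
      obtain ⟨x', -, hx'⟩ := g1 α s' hS
      have hz : ip C6 α γ' = 0 := by
        rw [hk, ip_add_right, JRK_ip_smul, ha, hort, mul_zero, add_zero]
      refine ⟨γ', ⟨hγ', ?_⟩, c, hc, s', x', Or.inr ⟨hpi, by rw [← hα]; exact hx'⟩, ?_⟩
      · intro h
        have e1 : ip C6 α' γ' = 0 := by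
          rw [← hπ, ← r1, hπ, hπ', h, hz]
        have e2 : ip C6 γ' γ' = 2 + k * (ip C6 α' γ) := by
          have e3 : ip C6 γ' γ' = ip C6 γ γ' + k * ip C6 α' γ' := by
            conv_lhs => rw [hk]
            rw [ip_comm C6, ip_add_right, JRK_ip_smul, ip_comm C6 _ γ, ip_comm C6 _ α', ← hk]
          rw [e3, e1, hk, ip_add_right, JRK_ip_smul, hγ.1, ip_comm C6 γ α']
          ring
        have e4 : ip C6 α' γ' = ip C6 α' γ + k * 2 := by
          rw [hk, ip_add_right, JRK_ip_smul, hi']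
        have e5 : k = 0 := by
          rw [hγ'] at e2
          rw [e1] at e4
          have e6 : k * k = 0 := by
            have : ip C6 α' γ = -(k * 2) := by omega
            rw [this] at e2
            nlinarith
          exact mul_self_eq_zero.1 e6
        rw [e5, zero_smul, add_zero] at hk
        rw [hk] at h
        exact hγ.2 h
      · have c1 := (f_COL 6 C6 K α α' hi hi').2 (le_of_eq hort.symm)
        have c2 := (f_COL 6 C6 K (-α) (-α') hnα hnα').2 (by rw [ip_neg_left, ip_neg_right, hort]; norm_num)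
        have c3 := (f_COL 6 C6 K (-α) α' hnα hi').2 (by rw [ip_neg_left, hort]; norm_num)
        have f1 := (f_ACT 6 C6 K α s hi).1 γ hγ.1 (le_of_eq ha.symm)
        have f2 := (f_ACT 6 C6 K (-α) t hnα).1 γ hγ.1 (by rw [ip_neg_left, ha]; norm_num)
        have f3 := (f_ACT 6 C6 K α s' hi).1 γ' hγ' (le_of_eq hz.symm)
        have hx'v : x' (E C6 γ') = (xe C6 (E C6 α') s' (E C6 γ') : Lm C6 K) := by
          rw [hx' _, hπ, one_sn, one_mul]
          change xe C6 (E C6 α) s' (xe C6 (E C6 α') s' (E C6 γ')) = _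
          rw [c1, f3]
        rw [hx'v, hys, hxs, c1, f1, c2, c3, f2, e]
    · -- `b = 0`
      left
      obtain ⟨γ', hγ', ⟨k, hk⟩, c, hc, s', e⟩ := JRK_rko C6 α γ s t hi hγ.1
      obtain ⟨x', -, hx'⟩ := g1 α s' hS
      have hz : ip C6 α' γ' = 0 := by
        rw [hk, ip_add_right, JRK_ip_smul, hb, hort', mul_zero, add_zero]
      refine ⟨γ', ⟨hγ', ?_⟩, c, hc, s', x', Or.inr ⟨hpi, by rw [← hα]; exact hx'⟩, ?_⟩
      · intro h
        have e1 : ip C6 α γ' = 0 := by
          rw [← hπ', ← r1, hπ', hπ, h, hz]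
        have e2 : ip C6 γ' γ' = 2 + k * (ip C6 α γ) := by
          have e3 : ip C6 γ' γ' = ip C6 γ γ' + k * ip C6 α γ' := by
            conv_lhs => rw [hk]
            rw [ip_comm C6, ip_add_right, JRK_ip_smul, ip_comm C6 _ γ, ip_comm C6 _ α, ← hk]
          rw [e3, e1, hk, ip_add_right, JRK_ip_smul, hγ.1, ip_comm C6 γ α]
          ring
        have e4 : ip C6 α γ' = ip C6 α γ + k * 2 := by
          rw [hk, ip_add_right, JRK_ip_smul, hi]
        have e5 : k = 0 := by
          rw [hγ'] at e2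
          rw [e1] at e4
          have e6 : k * k = 0 := by
            have : ip C6 α γ = -(k * 2) := by omega
            rw [this] at e2
            nlinarith
          exact mul_self_eq_zero.1 e6
        rw [e5, zero_smul, add_zero] at hk
        rw [hk] at h
        exact hγ.2 h
      · have c3 := (f_COL 6 C6 K (-α') α hnα' hi).2 (by rw [ip_neg_left, hort']; norm_num)
        have f1 := (f_ACT 6 C6 K α' s hi').1 γ hγ.1 (le_of_eq hb.symm)
        have f2 := (f_ACT 6 C6 K (-α') t hnα').1 γ hγ.1 (by rw [ip_neg_left, hb]; norm_num)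
        have f3 := (f_ACT 6 C6 K α' s' hi').1 γ' hγ' (le_of_eq hz.symm)
        have hx'v : x' (E C6 γ') = (xe C6 (E C6 α) s' (E C6 γ') : Lm C6 K) := by
          rw [hx' _, hπ, one_sn, one_mul]
          change xe C6 (E C6 α) s' (xe C6 (E C6 α') s' (E C6 γ')) = _
          rw [f3]
        rw [hx'v, hys, hxs, f1, c3, f2, e]
    · -- `(1, -1)` or `(-1, 1)`
      right
      intro t' g hg
      have hsum : ip C6 α γ + ip C6 α (pv γ) = 0 := by
        have e1 : ip C6 α (pv γ) = ip C6 α' γ := by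
          rw [← hπ', r1]
        rw [e1]
        exact hab
      have c1 := (hJCM K h2).1 α γ hS hγ (le_of_eq hsum.symm) s t' x g hx1 hg
      have c2 := (hJCM K h2).1 (-α) γ hSn hγ (by rw [ip_neg_left, ip_neg_left]; omega) t t' y g hy1 hg
      rw [mul_assoc, c1, ← mul_assoc, c2, mul_assoc]

end Pool.Agent.EXT
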